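import Pool.Agent.Lib.MP_0a5adf_nt.TP.Interfaces

/-!
# Module HOEFF
-/

set_option autoImplicit false

namespace Pool.Agent.Lib.MP_0a5adf_nt.TP.H15

open Finset

theorem sum_choose_exp (n : ℕ) (t : ℝ) :
    ∑ k ∈ range (n + 1), (n.choose k : ℝ) * Real.exp (t * (2 * k - n)) =
      (Real.exp t + Real.exp (-t)) ^ n := by
  rw [add_pow]
  refine sum_congr rfl fun k hk => ?_
  have hk' : k ≤ n := Nat.lt_succ_iff.1 (mem_range.1 hk)
  rw [← Real.exp_nat_mul, ← Real.exp_nat_mul, ← Real.exp_add, mul_comm]
  congr 2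
  rw [Nat.cast_sub hk']
  ring

theorem hoeff : HoeffStatement := by
  intro n x hx
  rcases Nat.eq_zero_or_pos n with rfl | hn
  · have h1 : ∑ k ∈ (range (0 + 1)).filter (fun k : ℕ => x ≤ |(k : ℝ) - (0 : ℕ) / 2|),
        ((0 : ℕ).choose k : ℝ) ≤ ∑ k ∈ range (0 + 1), ((0 : ℕ).choose k : ℝ) :=
      sum_le_sum_of_subset_of_nonneg (filter_subset _ _) fun _ _ _ => by positivity
    refine h1.trans ?_
    simp
  · have hn' : (0 : ℝ) < n := by exact_mod_cast hn
    set t : ℝ := 2 * x / n with ht
    have ht0 : 0 ≤ t := by positivity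
    have h1 : ∑ k ∈ (range (n + 1)).filter (fun k : ℕ => x ≤ |(k : ℝ) - n / 2|),
        (n.choose k : ℝ) ≤ ∑ k ∈ range (n + 1), (n.choose k : ℝ) *
          ((Real.exp (t * (2 * k - n)) + Real.exp (-t * (2 * k - n))) *
            Real.exp (-(2 * t * x))) := by
      refine (sum_le_sum fun k hk => ?_).trans
        (sum_le_sum_of_subset_of_nonneg (filter_subset _ _) fun _ _ _ => by positivity)
      rw [mem_filter] at hk
      have h2 : 1 ≤ (Real.exp (t * (2 * k - n)) + Real.exp (-t * (2 * k - n))) *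
          Real.exp (-(2 * t * x)) := by
        rw [add_mul, ← Real.exp_add, ← Real.exp_add]
        rcases le_abs.1 hk.2 with h | h
        · have h3 : 0 ≤ t * (2 * k - n) + -(2 * t * x) := by nlinarith
          have h4 := Real.one_le_exp h3
          have h5 := Real.exp_pos (-t * (2 * k - n) + -(2 * t * x))
          linarith
        · have h3 : 0 ≤ -t * (2 * k - n) + -(2 * t * x) := by nlinarith
          have h4 := Real.one_le_exp h3
          have h5 := Real.exp_pos (t * (2 * k - n) + -(2 * t * x))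
          linarith
      calc (n.choose k : ℝ) = n.choose k * 1 := (mul_one _).symm
        _ ≤ _ := mul_le_mul_of_nonneg_left h2 (by positivity)
    have h2 : ∑ k ∈ range (n + 1), (n.choose k : ℝ) *
          ((Real.exp (t * (2 * k - n)) + Real.exp (-t * (2 * k - n))) *
            Real.exp (-(2 * t * x))) =
        2 * (Real.exp t + Real.exp (-t)) ^ n * Real.exp (-(2 * t * x)) := by
      have h3 := sum_choose_exp n t
      have h4 := sum_choose_exp n (-t)
      rw [neg_neg, add_comm (Real.exp (-t))] at h4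
      calc _ = (∑ k ∈ range (n + 1), (n.choose k : ℝ) * Real.exp (t * (2 * k - n)) +
            ∑ k ∈ range (n + 1), (n.choose k : ℝ) * Real.exp (-t * (2 * k - n))) *
              Real.exp (-(2 * t * x)) := by
            rw [← sum_add_distrib, sum_mul]
            exact sum_congr rfl fun k _ => by ring
        _ = _ := by rw [h3, h4]; ring
    have h3 : Real.exp t + Real.exp (-t) = 2 * Real.cosh t := by
      rw [Real.cosh_eq]; ring
    have h4 : (Real.exp t + Real.exp (-t)) ^ n ≤ 2 ^ n * Real.exp (n * (t ^ 2 / 2)) := by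
      rw [h3, mul_pow, Real.exp_nat_mul]
      have h5 : Real.cosh t ^ n ≤ Real.exp (t ^ 2 / 2) ^ n :=
        pow_le_pow_left₀ (Real.cosh_pos t).le (Real.cosh_le_exp_half_sq t) n
      exact mul_le_mul_of_nonneg_left h5 (by positivity)
    refine h1.trans (h2.le.trans ?_)
    have h5 : 2 * (Real.exp t + Real.exp (-t)) ^ n * Real.exp (-(2 * t * x)) ≤
        2 * (2 ^ n * Real.exp (n * (t ^ 2 / 2))) * Real.exp (-(2 * t * x)) := by
      have := Real.exp_pos (-(2 * t * x))
      nlinarith
    refine h5.trans (le_of_eq ?_)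
    have h6 : 2 * (2 ^ n * Real.exp (n * (t ^ 2 / 2))) * Real.exp (-(2 * t * x)) =
        2 * 2 ^ n * (Real.exp (n * (t ^ 2 / 2)) * Real.exp (-(2 * t * x))) := by ring
    rw [h6, ← Real.exp_add]
    congr 2
    rw [ht]
    field_simp
    ring

end Pool.Agent.Lib.MP_0a5adf_nt.TP.H15
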